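import Mathlib
import Pool.Agent.X2.MobDim2

/-!
# The dimension of the set of large values of the Möbius exponential sum

Let `F_R(x) = ∑_{n ≤ R} μ(n) e(nx)`, and more generally let `F_R(x; q, a)` be the part of the sum over
`n ≡ a (mod q)`.  The conjecture `θ = 1/2` says that for `β > 1/2` no `x` has `|F_R(x)| ≥ R^β` for infinitely many
`R`, even uniformly in `x`.  Here: the set of these `x` has Hausdorff dimension at most `2 - 2β`.  So every set of
dimension greater than `s` contains points `x` with `F_R(x) = O(R^(1 - s/2))`, and for every measure with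
`ν(B(x, r)) ≤ K r^s` almost every `x` has `F_R(x) = O(R^(1 - s/2 + ε))`; for `s > 1/2` the exponent is less than `3/4`.
-/

set_option autoImplicit false

namespace Pool.Agent.Results.MP_b6b996_nt.LargeValueDimension

open Finset Filter MeasureTheory
open Pool.Agent.X1.SchP (E Fs)
open Pool.Agent.X2.MobDim (Large dim_le ae_small bound_of_eventually)

/-- The part of the Möbius exponential sum over `n ≡ a (mod q)`:
`F_R(x; q, a) = ∑_{n ≤ R, n ≡ a (mod q)} μ(n) e^{2πinx}`. -/
noncomputable def F (q a R : ℕ) (x : ℝ) : ℂ :=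
  ∑ n ∈ (Finset.Icc 1 R).filter (fun n => n % q = a % q), ((ArithmeticFunction.moebius n : ℤ) : ℂ) *
    Complex.exp (2 * Real.pi * Complex.I * n * x)

/-- the points of `[0, 1)` at which, for some progression `a (mod q)`, one has `|F_R(x; q, a)| ≥ R^β` for infinitely
many `R` -/
def LargeValues (β : ℝ) : Set ℝ :=
  {x : ℝ | x ∈ Set.Ico (0 : ℝ) 1 ∧ ∃ q a : ℕ, 1 ≤ q ∧ ∃ᶠ R : ℕ in atTop, (R : ℝ) ^ β ≤ ‖F q a R x‖}

/-- `F_R(x; q, a) = O(R^β)` for every progression -/
def Bounded (β x : ℝ) : Prop :=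
  ∀ q a : ℕ, 1 ≤ q → ∃ C : ℝ, ∀ R : ℕ, 1 ≤ R → ‖F q a R x‖ ≤ C * (R : ℝ) ^ β

/-- the coefficients -/
noncomputable def mu (q a n : ℕ) : ℂ := if n % q = a % q then ((ArithmeticFunction.moebius n : ℤ) : ℂ) else 0

lemma norm_mu (q a n : ℕ) : ‖mu q a n‖ ≤ 1 := by
  unfold mu
  split_ifs
  · rw [Complex.norm_intCast]
    exact_mod_cast ArithmeticFunction.abs_moebius_le_one
  · simp

lemma F_eq (q a R : ℕ) (x : ℝ) : F q a R x = Fs (mu q a) R x := by
  unfold F Fs
  rw [Finset.range_eq_Ico, Finset.sum_eq_sum_Ico_succ_bot (Nat.succ_pos R)]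
  have h0 : mu q a 0 * E ((0 : ℕ) * x) = 0 := by simp [mu]
  rw [h0, zero_add, Finset.sum_filter]
  have h1 : Ico (0 + 1) (R + 1) = Icc 1 R := by
    ext n; rw [mem_Ico, mem_Icc]; omega
  rw [h1]
  apply Finset.sum_congr rfl
  intro n _
  unfold mu E
  split_ifs
  · congr 2
    push_cast
    ring
  · rw [zero_mul]

lemma eventually_of_notMem (β x : ℝ) (hx : x ∈ Set.Ico (0 : ℝ) 1) (h : x ∉ LargeValues β) : Bounded β x := by
  intro q a hq
  have h1 : ∀ᶠ R : ℕ in atTop, ‖Fs (mu q a) R x‖ < (R : ℝ) ^ β := by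
    by_contra hcon
    rw [Filter.not_eventually] at hcon
    apply h
    refine ⟨hx, q, a, hq, hcon.mono fun R hR => ?_⟩
    rw [F_eq]
    exact not_lt.1 hR
  obtain ⟨C, hC⟩ := bound_of_eventually (mu q a) x β h1
  refine ⟨C, fun R hR => ?_⟩
  rw [F_eq]
  exact hC R hR

lemma dim_large (β : ℝ) (hβ0 : 0 ≤ β) (hβ1 : β ≤ 1) : dimH (LargeValues β) ≤ ENNReal.ofReal (2 - 2 * β) := by
  have h1 : LargeValues β ⊆ ⋃ p : ℕ × ℕ, Large (mu p.1 p.2) β := by
    rintro x ⟨hx, q, a, -, hfr⟩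
    rw [Set.mem_iUnion]
    refine ⟨(q, a), hx, hfr.mono fun R hR => ?_⟩
    rw [F_eq] at hR
    exact hR
  refine (dimH_mono h1).trans ?_
  rw [dimH_iUnion]
  exact iSup_le fun p => dim_le _ (norm_mu p.1 p.2) β hβ0 hβ1

/-- **Large values of the Möbius exponential sum: dimension at most `2 - 2β`.** -/
theorem result :
    -- the dimension of the set of the points with infinitely many large values
    (∀ β : ℝ, 0 ≤ β → β ≤ 1 → dimH (LargeValues β) ≤ ENNReal.ofReal (2 - 2 * β)) ∧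
    -- in every set of dimension greater than `s` the points with the exponent `1 - s/2` have full dimension
    (∀ (A : Set ℝ) (s : ℝ), A ⊆ Set.Ico (0 : ℝ) 1 → 0 ≤ s → ENNReal.ofReal s < dimH A →
      dimH {x : ℝ | x ∈ A ∧ Bounded (1 - s / 2) x} = dimH A) ∧
    -- for every measure with `ν (B (x, r)) ≤ K r^s`, almost every point has the exponent `1 - s/2 + ε`
    (∀ (ν : Measure ℝ) (K s : ℝ), 0 ≤ s → s ≤ 2 →
      (∀ x r : ℝ, 0 < r → r ≤ 1 → ν (Metric.closedBall x r) ≤ ENNReal.ofReal (K * r ^ s)) →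
      ∀ ε : ℝ, 0 < ε → ∀ᵐ x ∂ν, x ∈ Set.Ico (0 : ℝ) 1 → Bounded (1 - s / 2 + ε) x) := by
  refine ⟨dim_large, ?_, ?_⟩
  · intro A s hA hs hdim
    have hs1 : s ≤ 1 := by
      by_contra hcon
      push Not at hcon
      have h1 : dimH A ≤ 1 := by
        refine (dimH_mono (Set.subset_univ A)).trans ?_
        rw [Real.dimH_univ]
      have h2 : ENNReal.ofReal s < 1 := lt_of_lt_of_le hdim h1
      rw [ENNReal.ofReal_lt_one] at h2
      linarith
    have h1 := dim_large (1 - s / 2) (by linarith) (by linarith)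
    rw [show 2 - 2 * (1 - s / 2) = s by ring] at h1
    have h2 : A ⊆ {x : ℝ | x ∈ A ∧ Bounded (1 - s / 2) x} ∪ LargeValues (1 - s / 2) := by
      intro x hx
      by_cases h : x ∈ LargeValues (1 - s / 2)
      · exact Or.inr h
      · exact Or.inl ⟨hx, eventually_of_notMem _ x (hA hx) h⟩
    have h3 := dimH_mono h2
    rw [dimH_union] at h3
    apply le_antisymm (dimH_mono fun x hx => hx.1)
    rcases le_max_iff.1 h3 with h4 | h4
    · exact h4
    · exact absurd (h4.trans h1) (not_le.2 hdim)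
  · intro ν K s hs hs2 hν ε hε
    have key : ∀ δ : ℝ, 0 < δ → δ ≤ s / 2 → ∀ᵐ x ∂ν, x ∈ Set.Ico (0 : ℝ) 1 → Bounded (1 - s / 2 + δ) x := by
      intro δ hδ hδs
      have h1 : ∀ p : ℕ × ℕ, ∀ᵐ x ∂ν, x ∈ Set.Ico (0 : ℝ) 1 →
          ∀ᶠ R : ℕ in atTop, ‖Fs (mu p.1 p.2) R x‖ < (R : ℝ) ^ (1 - s / 2 + δ) := by
        intro p
        exact ae_small (mu p.1 p.2) (norm_mu p.1 p.2) (1 - s / 2 + δ) (by linarith) (by linarith)
          ν K s hν (by linarith)
      rw [← ae_all_iff] at h1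
      filter_upwards [h1] with x hx hx01 q a _
      obtain ⟨C, hC⟩ := bound_of_eventually (mu q a) x _ (hx (q, a) hx01)
      refine ⟨C, fun R hR => ?_⟩
      rw [F_eq]
      exact hC R hR
    rcases le_or_gt ε (s / 2) with h | h
    · exact key ε hε h
    · -- the trivial bound
      refine Filter.Eventually.of_forall fun x _ q a _ => ⟨2, fun R hR => ?_⟩
      have hR1 : (1 : ℝ) ≤ R := by exact_mod_cast hR
      have h1 : ‖F q a R x‖ ≤ 2 * R := by
        rw [F_eq]
        unfold Fs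
        refine (norm_sum_le _ _).trans ?_
        calc ∑ n ∈ range (R + 1), ‖mu q a n * E (n * x)‖ ≤ ∑ n ∈ range (R + 1), (1 : ℝ) := by
              apply Finset.sum_le_sum
              intro n _
              rw [norm_mul, Pool.Agent.X1.SchP.norm_E, mul_one]
              exact norm_mu q a n
          _ = R + 1 := by simp
          _ ≤ 2 * R := by linarith
      refine h1.trans ?_
      apply mul_le_mul_of_nonneg_left _ (by norm_num)
      calc (R : ℝ) = (R : ℝ) ^ (1 : ℝ) := (Real.rpow_one _).symm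
        _ ≤ (R : ℝ) ^ (1 - s / 2 + ε) := Real.rpow_le_rpow_of_exponent_le hR1 (by linarith)

end Pool.Agent.Results.MP_b6b996_nt.LargeValueDimension
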